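import Pool.Agent.K1H35.JA.Stm

/-!
Project JA, piece FUN: dual vectors with small entries.
-/

set_option autoImplicit false

namespace Pool.Agent.K1H41.JA

open Finset Pool.Agent.K1H35.JA Matrix

/-- the candidates for the columns -/
def wZ {k : ℕ} (P : Finset (Fin k → ℤ)) : (P ⊕ Fin k) → (Fin k → ℤ)
  | Sum.inl p => p.1
  | Sum.inr j => Pi.single j 1

lemma exists_cols {k : ℕ} (P : Finset (Fin k → ℤ))
    (hP : LinearIndependent ℤ (fun p : P => (p : Fin k → ℤ))) :
    ∃ (b : Set (P ⊕ Fin k)) (e : Fin k ≃ b), (∀ p : P, Sum.inl p ∈ b) ∧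
      (Matrix.of fun i c : Fin k => wZ P (e c).1 i).det ≠ 0 := by
  classical
  set L : (Fin k → ℤ) →ₗ[ℤ] (Fin k → ℚ) :=
    { toFun := fun x i => (x i : ℚ)
      map_add' := by intro x y; funext i; simp
      map_smul' := by intro x y; funext i; simp } with hL
  have hLi : Function.Injective L := by
    intro x y h
    funext i
    have := congrFun h i
    simpa [hL] using this
  have h1 : LinearIndependent ℤ (fun p : P => L (p : Fin k → ℤ)) :=
    hP.map' L (LinearMap.ker_eq_bot.2 hLi)
  have h2 : LinearIndependent ℚ (fun p : P => L (p : Fin k → ℤ)) :=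
    (LinearIndependent.iff_fractionRing ℤ ℚ).1 h1
  set w : (P ⊕ Fin k) → (Fin k → ℚ) := fun x => L (wZ P x) with hw
  have h3 : LinearIndepOn ℚ w (Set.range Sum.inl) := by
    rw [linearIndepOn_range_iff Sum.inl_injective]
    exact h2
  obtain ⟨b, -, hsb, hspan, hb⟩ := exists_linearIndepOn_extension h3 (Set.subset_univ _)
  have hbas : LinearIndependent ℚ (fun x : b => w x.1) := hb
  have htop : ⊤ ≤ Submodule.span ℚ (Set.range (fun x : b => w x.1)) := by
    have e1 : Set.range (fun x : b => w x.1) = w '' b := by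
      ext y
      constructor
      · rintro ⟨x, rfl⟩
        exact ⟨x.1, x.2, rfl⟩
      · rintro ⟨x, hx, rfl⟩
        exact ⟨⟨x, hx⟩, rfl⟩
    rw [e1]
    intro v _
    have h5 : v = ∑ j, v j • w (Sum.inr j) := by
      funext i
      simp [hw, wZ, hL, Pi.single_apply]
    rw [h5]
    refine Submodule.sum_mem _ fun j _ => Submodule.smul_mem _ _ ?_
    exact hspan ⟨Sum.inr j, Set.mem_univ _, rfl⟩
  let bs : Module.Basis b ℚ (Fin k → ℚ) := Module.Basis.mk hbas htop
  have hcard : Fintype.card b = k := by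
    have h6 := Module.finrank_eq_card_basis bs
    rw [Module.finrank_fin_fun] at h6
    exact h6.symm
  let e : Fin k ≃ b := (Fintype.equivFinOfCardEq hcard).symm
  refine ⟨b, e, fun p => hsb ⟨p, rfl⟩, ?_⟩
  have h7 : LinearIndependent ℚ (fun c : Fin k => w (e c).1) := hbas.comp e e.injective
  intro h0
  have h8 : ((Matrix.of fun i c : Fin k => wZ P (e c).1 i).map (Int.castRingHom ℚ)).det = 0 := by
    rw [← RingHom.mapMatrix_apply, ← RingHom.map_det, h0]
    simp
  have h9 : LinearIndependent ℚ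
      ((Matrix.of fun i c : Fin k => wZ P (e c).1 i).map (Int.castRingHom ℚ)).col := by
    have e2 : ((Matrix.of fun i c : Fin k => wZ P (e c).1 i).map (Int.castRingHom ℚ)).col =
        fun c : Fin k => w (e c).1 := by
      funext c i
      simp [hw, hL, Matrix.col]
    rw [e2]
    exact h7
  rw [Matrix.linearIndependent_cols_iff_isUnit, Matrix.isUnit_iff_isUnit_det] at h9
  rw [h8] at h9
  exact not_isUnit_zero h9

lemma det_bound {k m : ℕ} (A : Matrix (Fin k) (Fin k) ℤ) (hA : ∀ i j, |A i j| ≤ (m : ℤ)) :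
    |A.det| ≤ (M1 k m : ℤ) := by
  have h := Matrix.det_le (A := A) (abv := AbsoluteValue.abs) (x := (m : ℤ)) hA
  simp only [Fintype.card_fin, nsmul_eq_mul] at h
  unfold M1
  push_cast
  exact h

lemma adj_bound {k m : ℕ} (hm : 1 ≤ m) (A : Matrix (Fin k) (Fin k) ℤ)
    (hA : ∀ i j, |A i j| ≤ (m : ℤ)) (i j : Fin k) : |A.adjugate i j| ≤ (M1 k m : ℤ) := by
  rw [Matrix.adjugate_apply]
  apply det_bound
  intro a b
  rw [Matrix.updateRow_apply]
  split_ifs
  · rw [Pi.single_apply]
    split_ifs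
    · simpa using hm
    · simp
  · exact hA a b

theorem t_FUN : S_FUN := by
  classical
  intro k m hm P hPm hP
  obtain ⟨b, e, hb, hdet⟩ := exists_cols P hP
  set B : Matrix (Fin k) (Fin k) ℤ := Matrix.of fun i c : Fin k => wZ P (e c).1 i with hB
  have hBm : ∀ i c, |B i c| ≤ (m : ℤ) := by
    intro i c
    have h1 : B i c = wZ P (e c).1 i := rfl
    rw [h1]
    rcases (e c).1 with p | j
    · exact hPm p.1 p.2 i
    · show |(Pi.single j 1 : Fin k → ℤ) i| ≤ (m : ℤ)
      rw [Pi.single_apply]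
      split_ifs
      · simpa using hm
      · simp
  -- the sign
  obtain ⟨σ, hσ1, hσ2⟩ : ∃ σ : ℤ, σ * B.det = |B.det| ∧ |σ| = 1 := by
    rcases abs_choice B.det with h | h
    · exact ⟨1, by rw [h, one_mul], by simp⟩
    · exact ⟨-1, by rw [h]; ring, by simp⟩
  -- the position of `p`
  set pos : P → Fin k := fun p => e.symm ⟨Sum.inl p, hb p⟩ with hpos
  have hcol : ∀ (p : P) (i : Fin k), B i (pos p) = p.1 i := by
    intro p i
    show wZ P (e (e.symm ⟨Sum.inl p, hb p⟩)).1 i = p.1 i
    rw [Equiv.apply_symm_apply]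
    rfl
  have hposinj : Function.Injective pos := by
    intro p q h
    have h1 := e.symm.injective h
    have h2 := congrArg Subtype.val h1
    exact Sum.inl_injective h2
  set a : (Fin k → ℤ) → (Fin k → ℤ) := fun p =>
    if h : p ∈ P then fun j => σ * B.adjugate (pos ⟨p, h⟩) j else 0 with ha
  have hap : ∀ (p : Fin k → ℤ) (h : p ∈ P), a p = fun j => σ * B.adjugate (pos ⟨p, h⟩) j := by
    intro p h
    simp only [ha, dif_pos h]
  set I : Finset (Fin k) := univ.filter fun c => ∀ p : P, c ≠ pos p with hI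
  set Z : Finset (Fin k → ℤ) := I.image fun c => B.adjugate c with hZ
  have hadj : ∀ (c : Fin k) (q : P), ∑ j, B.adjugate c j * q.1 j =
      if c = pos q then B.det else 0 := by
    intro c q
    have h1 := congrFun (congrFun (Matrix.adjugate_mul B) c) (pos q)
    rw [Matrix.mul_apply, Matrix.smul_apply, Matrix.one_apply] at h1
    simp only [hcol] at h1
    rw [h1]
    split_ifs <;> simp
  refine ⟨|B.det|, a, Z, abs_pos.2 hdet, det_bound B hBm, ?_, ?_, ?_, ?_, ?_⟩
  · intro p hp j
    rw [hap p hp]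
    show |σ * B.adjugate (pos ⟨p, hp⟩) j| ≤ _
    rw [abs_mul, hσ2, one_mul]
    exact adj_bound hm B hBm _ _
  · intro z hz j
    rw [hZ, Finset.mem_image] at hz
    obtain ⟨c, -, rfl⟩ := hz
    exact adj_bound hm B hBm _ _
  · intro p hp q hq
    rw [hap p hp]
    show ∑ j, σ * B.adjugate (pos ⟨p, hp⟩) j * q j = _
    have h1 := hadj (pos ⟨p, hp⟩) ⟨q, hq⟩
    simp only [mul_assoc, ← Finset.mul_sum]
    rw [h1]
    by_cases hpq : p = q
    · subst hpq
      rw [if_pos rfl, if_pos rfl, hσ1]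
    · rw [if_neg hpq, if_neg, mul_zero]
      intro h2
      exact hpq (congrArg Subtype.val (hposinj h2))
  · intro z hz q hq
    rw [hZ, Finset.mem_image] at hz
    obtain ⟨c, hc, rfl⟩ := hz
    have h1 := hadj c ⟨q, hq⟩
    rw [hI, Finset.mem_filter] at hc
    rw [if_neg (hc.2 ⟨q, hq⟩)] at h1
    exact h1
  · intro z hz
    -- the coordinates
    have hz' : ∀ c ∈ I, ∑ j, B.adjugate c j * z j = 0 := by
      intro c hc
      exact hz _ (Finset.mem_image_of_mem _ hc)
    funext i
    have h1 : B.det * z i = ∑ c, B i c * ∑ j, B.adjugate c j * z j := by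
      have h2 : (B * B.adjugate) *ᵥ z = (B.det • (1 : Matrix (Fin k) (Fin k) ℤ)) *ᵥ z := by
        rw [Matrix.mul_adjugate]
      rw [← Matrix.mulVec_mulVec, Matrix.smul_mulVec, Matrix.one_mulVec] at h2
      have h3 := congrFun h2 i
      rw [Pi.smul_apply, smul_eq_mul] at h3
      rw [← h3]
      rfl
    have h4 : ∑ c, B i c * ∑ j, B.adjugate c j * z j =
        ∑ p : P, p.1 i * ∑ j, B.adjugate (pos p) j * z j := by
      rw [← Finset.sum_filter_add_sum_filter_not univ (fun c => ∀ p : P, c ≠ pos p)]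
      have h5 : ∑ c ∈ univ.filter (fun c => ∀ p : P, c ≠ pos p),
          B i c * ∑ j, B.adjugate c j * z j = 0 := by
        refine Finset.sum_eq_zero fun c hc => ?_
        rw [hz' c hc, mul_zero]
      rw [h5, zero_add]
      have h6 : univ.filter (fun c => ¬ ∀ p : P, c ≠ pos p) = univ.image pos := by
        ext c
        simp only [Finset.mem_filter, Finset.mem_univ, true_and, Finset.mem_image]
        push Not
        constructor
        · rintro ⟨p, hp⟩
          exact ⟨p, hp.symm⟩
        · rintro ⟨p, hp⟩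
          exact ⟨p, hp.symm⟩
      rw [h6, Finset.sum_image (fun p _ q _ h => hposinj h)]
      refine Finset.sum_congr rfl fun p _ => ?_
      rw [hcol]
    have h7 : (∑ p ∈ P, (a p ⬝ᵥ z) • p) i = ∑ p : P, (a p.1 ⬝ᵥ z) * p.1 i := by
      rw [Finset.sum_apply, ← Finset.sum_coe_sort P]
      rfl
    rw [h7, Pi.smul_apply, smul_eq_mul, ← hσ1, mul_assoc, h1, h4, Finset.mul_sum]
    refine Finset.sum_congr rfl fun p _ => ?_
    have h8 : a p.1 ⬝ᵥ z = σ * ∑ j, B.adjugate (pos p) j * z j := by
      rw [hap p.1 p.2]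
      show ∑ j, σ * B.adjugate (pos ⟨p.1, p.2⟩) j * z j = _
      simp only [mul_assoc, ← Finset.mul_sum]
    rw [h8]
    ring

end Pool.Agent.K1H41.JA
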